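import Pool.Agent.Lib.MP_305fdd_al.To.T1.Hyp
import Pool.Agent.Lib.MP_305fdd_al.To.ST.PSLDisc
import Pool.Agent.Lib.MP_305fdd_al.To.VT.Tf

/-!
# MP_305fdd_al, lattices with torsion: elements of infinite order in cosets

`inf`: in a cocompact lattice of `PSL_2(ℝ)` every coset of a subgroup of finite index contains an
element of infinite order.
-/

set_option autoImplicit false

namespace Pool.Agent.ToT1

open Pool.Agent.ToN Pool.Agent.ToST Matrix

/-! ## The theorem -/

variable {G : Type} [Group G]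

theorem coc_sub {R : G →* PSLR} (hc : Coc R) (H : Subgroup G) [H.FiniteIndex] :
    ∃ C : ℝ, ∀ h : SLR, ∃ (y : G) (A : SLR), y ∈ H ∧ pr A = R y ∧ ∀ i j, |(A * h).1 i j| ≤ C := by
  classical
  obtain ⟨C, hC⟩ := hc
  have hfq : Finite (G ⧸ H) := Subgroup.finite_quotient_of_finiteIndex
  have hF : Fintype (G ⧸ H) := Fintype.ofFinite _
  choose T hT using fun q : G ⧸ H => pr_surj (R q.out)
  obtain ⟨K, hK⟩ : ∃ K : ℝ, ∀ (q : G ⧸ H) (i j : Fin 2), |((T q)⁻¹).1 i j| ≤ K := by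
    obtain ⟨K, hK⟩ := (Set.finite_range (fun p : (G ⧸ H) × Fin 2 × Fin 2 =>
      |((T p.1)⁻¹).1 p.2.1 p.2.2|)).bddAbove
    exact ⟨K, fun q i j => hK ⟨(q, i, j), rfl⟩⟩
  refine ⟨2 * (K * C), fun h => ?_⟩
  obtain ⟨g, A, h1, h2⟩ := hC h
  refine ⟨(QuotientGroup.mk g : G ⧸ H).out⁻¹ * g, (T (QuotientGroup.mk g))⁻¹ * A, ?_, ?_, ?_⟩
  · rw [← QuotientGroup.eq, QuotientGroup.out_eq']
  · rw [map_mul, map_inv, hT, h1, map_mul, map_inv]
  · intro i j
    rw [mul_assoc, mul1, Matrix.mul_apply, Fin.sum_univ_two]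
    have hK0 : 0 ≤ K := (abs_nonneg _).trans (hK (QuotientGroup.mk g) 0 0)
    have e : ∀ k, |((T (QuotientGroup.mk g))⁻¹).1 i k * (A * h).1 k j| ≤ K * C := by
      intro k
      rw [abs_mul]
      exact mul_le_mul (hK _ _ _) (h2 _ _) (abs_nonneg _) hK0
    calc _ ≤ _ := abs_add_le _ _
      _ ≤ K * C + K * C := add_le_add (e 0) (e 1)
      _ = _ := by ring

/-- every coset of a subgroup of finite index contains an element of infinite order -/
theorem inf {R : G →* PSLR} (hd : Disc R) (hc : Coc R) (H : Subgroup G) [H.FiniteIndex] (x : G) :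
    ∃ y ∈ H, ∀ n : ℕ, 0 < n → (x * y) ^ n ≠ 1 := by
  classical
  by_contra hne
  push Not at hne
  have hL : Nonempty (Lat G) := Lat.of_disc_coc R hd.inj hd hc
  obtain ⟨L⟩ := hL
  apply ToVT.not_comm (ToVT.sub L H)
  obtain ⟨C, hC⟩ := coc_sub hc H
  obtain ⟨S, hS⟩ : ∃ S : Set SLR, S = {A | ∃ y ∈ H, pr A = R y} := ⟨_, rfl⟩
  have hmul : ∀ A ∈ S, ∀ B ∈ S, A * B ∈ S := by
    rw [hS]
    rintro A ⟨y, hy, e⟩ B ⟨z, hz, e'⟩
    exact ⟨y * z, H.mul_mem hy hz, by rw [map_mul, map_mul, e, e']⟩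
  have hinv : ∀ A ∈ S, A⁻¹ ∈ S := by
    rw [hS]
    rintro A ⟨y, hy, e⟩
    exact ⟨y⁻¹, H.inv_mem hy, by rw [map_inv, map_inv, e]⟩
  obtain ⟨M, hM, hM4⟩ := exists_hyp S hmul C (fun h => by
    obtain ⟨y, A, hy, e, hb⟩ := hC h
    exact ⟨A, by rw [hS]; exact ⟨y, hy, e⟩, hb⟩)
  obtain ⟨X, hX⟩ := pr_surj (R x)
  have h2 : ∀ A ∈ S, |(X * A).1.trace| ≤ 2 := by
    intro A hA
    rw [hS] at hA
    obtain ⟨y, hy, e⟩ := hA
    obtain ⟨n, hn, h⟩ := hne y hy
    have h3 := tr_le_of_pow (A := X * A) hn (by rw [map_mul, hX, e, ← map_mul, ← map_pow, h, map_one])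
    exact abs_le_of_sq_le_sq (by linarith) (by norm_num)
  obtain ⟨t, ht⟩ : ∃ t, t = |M.1.trace| := ⟨_, rfl⟩
  have ht2 : 2 < t := by
    rw [ht]
    by_contra h
    push Not at h
    have := abs_nonneg M.1.trace
    nlinarith [sq_abs M.1.trace]
  have h3 : ∀ k : ℕ, ∀ A ∈ S, |(X * A).1.trace| ≤ 2 * (2 / t) ^ k := by
    intro k
    induction k with
    | zero => intro A hA; rw [pow_zero, mul_one]; exact h2 A hA
    | succ k ih =>
      intro A hA
      have e1 := ih _ (hmul A hA M hM)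
      have e2 := ih _ (hmul A hA _ (hinv M hM))
      have e3 := tr_add (X * A) M
      rw [mul_assoc, mul_assoc] at e3
      have e4 : |(X * A).1.trace| * |M.1.trace| ≤ 2 * (2 / t) ^ k + 2 * (2 / t) ^ k := by
        rw [← abs_mul, ← e3]
        exact (abs_add_le _ _).trans (add_le_add e1 e2)
      rw [← ht] at e4
      rw [pow_succ, show 2 * ((2 / t) ^ k * (2 / t)) = (2 * (2 * (2 / t) ^ k)) / t by ring,
        le_div_iff₀ (by linarith)]
      linarith
  have h4 : ∀ A ∈ S, (X * A).1.trace = 0 := by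
    intro A hA
    have e1 : Filter.Tendsto (fun k : ℕ => 2 * (2 / t) ^ k) Filter.atTop (nhds (2 * 0)) :=
      (tendsto_pow_atTop_nhds_zero_of_lt_one (by positivity)
        (by rw [div_lt_one (by linarith)]; exact ht2)).const_mul 2
    rw [mul_zero] at e1
    have e2 := ge_of_tendsto' e1 (fun k => h3 k A hA)
    exact abs_eq_zero.1 (le_antisymm e2 (abs_nonneg _))
  have h5 : ∀ B : SLR, B.1.trace = 0 → (B * B).1 = -1 := by
    intro B hB
    have e := slr_det B
    rw [tr_eq] at hB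
    ext i j
    fin_cases i <;> fin_cases j
    · show (B * B).1 0 0 = _
      rw [mul00]; simp; linear_combination B.1 0 0 * hB - e
    · show (B * B).1 0 1 = _
      rw [mul01]; simp; linear_combination B.1 0 1 * hB
    · show (B * B).1 1 0 = _
      rw [mul10]; simp; linear_combination B.1 1 0 * hB
    · show (B * B).1 1 1 = _
      rw [mul11]; simp; linear_combination B.1 1 1 * hB - e
  have h1S : (1 : SLR) ∈ S := by
    rw [hS]; exact ⟨1, H.one_mem, by rw [map_one, map_one]⟩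
  have h6 : (X * X).1 = -1 := by
    apply h5
    have := h4 1 h1S
    rwa [mul_one] at this
  -- conjugation by `X` inverts the elements of `S`
  have h7 : ∀ A ∈ S, (X * A * X).1 = -(A⁻¹).1 := by
    intro A hA
    have e := h5 _ (h4 A hA)
    have e2 : X * A * X = (X * A * (X * A)) * A⁻¹ := by group
    rw [e2, mul1, e, neg_one_mul]
  intro y z
  apply Subtype.ext
  apply hd.inj
  obtain ⟨A, hA⟩ := pr_surj (R y)
  obtain ⟨B, hB⟩ := pr_surj (R z)
  have hAS : A ∈ S := by rw [hS]; exact ⟨y, y.2, hA⟩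
  have hBS : B ∈ S := by rw [hS]; exact ⟨z, z.2, hB⟩
  have e1 := h7 _ (hmul A hAS B hBS)
  have e2 : (X * (A * B) * X).1 = -((X * A * X).1 * (X * B * X).1) := by
    have e3 : X * A * X * (X * B * X) = X * A * (X * X) * (B * X) := by group
    have e4 : (X * A * X * (X * B * X)).1 = -(X * A * (B * X)).1 := by
      rw [e3, mul1 (X * A * (X * X)) (B * X), mul1 (X * A) (X * X), h6, Matrix.mul_neg,
        Matrix.mul_one, Matrix.neg_mul, ← mul1]
    have e5 : X * (A * B) * X = X * A * (B * X) := by group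
    rw [← mul1, e4, neg_neg, e5]
  rw [e1, h7 A hAS, h7 B hBS, Matrix.neg_mul, Matrix.mul_neg, neg_neg, neg_inj, ← mul1] at e2
  have e3 : (A * B)⁻¹ = A⁻¹ * B⁻¹ := Subtype.ext e2
  have e4 : A * B = B * A := by
    have := congrArg (·⁻¹) e3
    simp only [inv_inv, _root_.mul_inv_rev] at this
    exact this
  show R (y.1 * z.1) = R (z.1 * y.1)
  rw [map_mul, map_mul, ← hA, ← hB, ← map_mul, ← map_mul, e4]

end Pool.Agent.ToT1
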