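import Pool.Agent.Lib.MP_305fdd_al.To.VT.Surf
import Pool.Agent.Lib.MP_305fdd_al.Su.Sig.PM
import Pool.Agent.Lib.MP_305fdd_al.F8.Tower
import Pool.Agent.Lib.MP_305fdd_al.Su.Emb
import Pool.Agent.Lib.MP_305fdd_al.Su.SM.Small

/-!
# MP_305fdd_al, lattices with torsion: the centraliser of a surface subgroup of finite index

`Λ` is a group with the same finite quotients as a cocompact lattice `Δ`, `N` a normal subgroup of
finite index of `Λ` which is a surface group of genus at least two.  Then the centraliser of `N` in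
`Λ` is trivial (`t1`).
-/

set_option autoImplicit false

namespace Pool.Agent.ToT1

open Pool.Agent.Lib.MP_305fdd_al Pool.Agent.MP_305fdd_al Pool.Agent.SuD Pool.Agent.Su
  Pool.Agent.ToST

/-! ## The center of a surface group -/

theorem not_comm {h : ℕ} (hh : 2 ≤ h) : ¬ ∀ x y : SurfaceGroup h, x * y = y * x := by
  classical
  intro hc
  obtain ⟨m, rfl⟩ : ∃ m, h = m + 2 := ⟨h - 2, by omega⟩
  let s : Equiv.Perm (Fin 3) := Equiv.swap 0 1
  let t : Equiv.Perm (Fin 3) := Equiv.swap 1 2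
  let a : Fin (m + 2) → Equiv.Perm (Fin 3) := Fin.cons s (Fin.cons t fun _ => 1)
  let b : Fin (m + 2) → Equiv.Perm (Fin 3) := Fin.cons t (Fin.cons s fun _ => 1)
  have hrel : (List.ofFn fun i : Fin (m + 2) => a i * b i * (a i)⁻¹ * (b i)⁻¹).prod = 1 := by
    rw [List.ofFn_succ, List.ofFn_succ, List.prod_cons, List.prod_cons]
    have h1 : (List.ofFn fun i : Fin m => a i.succ.succ * b i.succ.succ * (a i.succ.succ)⁻¹ *
        (b i.succ.succ)⁻¹).prod = 1 := by
      apply List.prod_eq_one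
      intro x hx
      rw [List.mem_ofFn] at hx
      obtain ⟨i, rfl⟩ := hx
      simp [a, b]
    rw [h1]
    show s * t * s⁻¹ * t⁻¹ * (t * s * t⁻¹ * s⁻¹ * 1) = 1
    group
  have h2 := congrArg (surfLift a b hrel) (hc (sa _ 0) (sb _ 0))
  rw [map_mul, map_mul, surfLift_sa, surfLift_sb] at h2
  have h3 : s * t ≠ t * s := by decide
  exact h3 h2

theorem center {h : ℕ} (hh : 2 ≤ h) (z : SurfaceGroup h) (hz : ∀ y, z * y = y * z) : z = 1 := by
  obtain ⟨E, _, hE, φ, hφ⟩ := Su.exists_rep h hh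
  by_contra hz1
  apply not_comm hh
  have h1 : ¬ ∃ s : E, (φ z).1 = s • (1 : Matrix (Fin 2) (Fin 2) E) := by
    rintro ⟨s, hs⟩
    apply hz1
    apply hφ
    rw [map_one]
    apply Subtype.ext
    have h2 : (φ z).1.det = 1 := (φ z).2
    rw [hs, Matrix.det_smul, Matrix.det_one, mul_one, Fintype.card_fin] at h2
    have h3 : (s - 1) ^ 2 = 0 := by
      rw [sub_sq, h2, one_pow, mul_one]
      have h4 : (2 : E) = 0 := CharTwo.two_eq_zero
      linear_combination (1 - s) * h4
    have h5 : s = 1 := sub_eq_zero.1 (pow_eq_zero_iff (two_ne_zero)|>.1 h3)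
    rw [hs, h5, one_smul]
    rfl
  intro x y
  apply hφ
  rw [map_mul, map_mul]
  apply Subtype.ext
  apply Pool.Agent.SuSM.comm_of_commute h1
  · have := congrArg Subtype.val (congrArg φ (hz x))
    rw [map_mul, map_mul] at this
    exact this.symm
  · have := congrArg Subtype.val (congrArg φ (hz y))
    rw [map_mul, map_mul] at this
    exact this.symm

/-! ## Counting homomorphisms -/

section hom

variable {A : Type} [CommGroup A]

/-- homomorphisms of a surface group to a commutative group -/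
theorem card_surf (h : ℕ) : Nat.card (SurfaceGroup h →* A) = Nat.card A ^ (2 * h) := by
  have hrel : ∀ f : (Fin h → A) × (Fin h → A),
      (List.ofFn fun i : Fin h => f.1 i * f.2 i * (f.1 i)⁻¹ * (f.2 i)⁻¹).prod = 1 := by
    intro f
    apply List.prod_eq_one
    intro x hx
    rw [List.mem_ofFn] at hx
    obtain ⟨i, rfl⟩ := hx
    show f.1 i * f.2 i * (f.1 i)⁻¹ * (f.2 i)⁻¹ = 1
    rw [mul_comm (f.1 i) (f.2 i)]
    group
  let e : (SurfaceGroup h →* A) ≃ (Fin h → A) × (Fin h → A) :=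
    { toFun := fun φ => (fun i => φ (sa h i), fun i => φ (sb h i))
      invFun := fun f => surfLift f.1 f.2 (hrel f)
      left_inv := fun φ => surf_ext (fun i => surfLift_sa _ _ _ i) (fun i => surfLift_sb _ _ _ i)
      right_inv := fun f => by
        apply Prod.ext
        · funext i
          exact surfLift_sa _ _ _ i
        · funext i
          exact surfLift_sb _ _ _ i }
  rw [Nat.card_congr e, Nat.card_prod, Nat.card_fun, Nat.card_fin, ← pow_add]
  congr 1
  omega

/-- homomorphisms of the group of a signature to a commutative group of coprime order -/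
theorem card_sig [Finite A] {g k : ℕ} {m : Fin k → ℕ} (hm : ∀ j, (m j).Coprime (Nat.card A)) :
    Nat.card (Sg.SigGroup g k m →* A) ≤ Nat.card A ^ (2 * g) := by
  have h1 : Function.Injective (fun φ : Sg.SigGroup g k m →* A =>
      ((fun i => φ (Sg.aa i), fun i => φ (Sg.bb i)) : (Fin g → A) × (Fin g → A))) := by
    intro φ ψ hφψ
    rw [Prod.mk.injEq] at hφψ
    have hx : ∀ (χ : Sg.SigGroup g k m →* A) j, χ (Sg.xx j) = 1 := by
      intro χ j
      have h2 : (χ (Sg.xx j)) ^ m j = 1 := by rw [← map_pow, Sg.xx_pow, map_one]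
      have h3 : (χ (Sg.xx j)) ^ Nat.card A = 1 := pow_card_eq_one'
      have h4 : orderOf (χ (Sg.xx j)) = 1 := by
        have h5 := Nat.dvd_gcd (orderOf_dvd_of_pow_eq_one h2) (orderOf_dvd_of_pow_eq_one h3)
        rw [Nat.Coprime.gcd_eq_one (hm j)] at h5
        exact Nat.dvd_one.1 h5
      exact orderOf_eq_one_iff.1 h4
    exact Sg.hom_ext (fun i => congrFun hφψ.1 i) (fun i => congrFun hφψ.2 i)
      (fun j => by rw [hx, hx])
  have h2 := Nat.card_le_card_of_injective _ h1
  rw [Nat.card_prod, Nat.card_fun, Nat.card_fin, ← pow_add] at h2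
  rwa [show g + g = 2 * g by omega] at h2

end hom

/-! ## A group with a normal subgroup and a commuting element of prime order -/

section prod

variable {Λ Q : Type} [Group Λ] [Group Q] (π : Λ →* Q) {c : Λ}

/-- the homomorphism `⟨π c⟩ → Λ`, `(π c)^i ↦ c^i` -/
theorem exists_sec (hc : ∀ i : ℤ, π c ^ i = 1 → c ^ i = 1) :
    ∃ σ : Subgroup.zpowers (π c) →* Λ, ∀ s, π (σ s) = s.1 ∧ ∃ i : ℤ, σ s = c ^ i := by
  have h0 : ∀ s : Subgroup.zpowers (π c), ∃ i : ℤ, π c ^ i = s.1 :=
    fun s => Subgroup.mem_zpowers_iff.1 s.2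
  choose f hf using h0
  have key : ∀ i j : ℤ, π c ^ i = π c ^ j → c ^ i = c ^ j := by
    intro i j hij
    have h2 := hc (i - j) (by rw [zpow_sub, hij, mul_inv_cancel])
    rw [zpow_sub, mul_inv_eq_one] at h2
    exact h2
  refine ⟨MonoidHom.mk' (fun s => c ^ f s) ?_, fun s => ⟨?_, f s, rfl⟩⟩
  · intro s t
    rw [← zpow_add]
    apply key
    rw [zpow_add, hf, hf, hf]
    rfl
  · show π (c ^ f s) = s.1
    rw [map_zpow, hf]

variable (hcomm : ∀ n ∈ π.ker, c * n = n * c) (hc : ∀ i : ℤ, π c ^ i = 1 → c ^ i = 1)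

include hcomm hc in
/-- the retraction to the kernel -/
theorem exists_ret : ∃ r : (Subgroup.zpowers (π c)).comap π →* π.ker,
    ∀ (n : Λ) (hn : n ∈ π.ker) (hn' : n ∈ (Subgroup.zpowers (π c)).comap π),
      r ⟨n, hn'⟩ = ⟨n, hn⟩ := by
  obtain ⟨σ, hσ⟩ := exists_sec π hc
  let θ : (Subgroup.zpowers (π c)).comap π →* Subgroup.zpowers (π c) :=
    π.subgroupComap _
  have hθ : ∀ x, (θ x).1 = π x.1 := fun x => rfl
  have hk : ∀ x : (Subgroup.zpowers (π c)).comap π, x.1 * (σ (θ x))⁻¹ ∈ π.ker := by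
    intro x
    rw [MonoidHom.mem_ker, map_mul, map_inv, (hσ _).1, hθ, mul_inv_cancel]
  have hcom : ∀ (s : Subgroup.zpowers (π c)) (n : Λ), n ∈ π.ker → n * σ s = σ s * n := by
    intro s n hn
    obtain ⟨i, hi⟩ := (hσ s).2
    rw [hi]
    exact ((show Commute c n from hcomm n hn).zpow_left i).symm.eq
  refine ⟨MonoidHom.mk' (fun x => ⟨x.1 * (σ (θ x))⁻¹, hk x⟩) ?_, ?_⟩
  · intro x y
    apply Subtype.ext
    show (x.1 * y.1) * (σ (θ (x * y)))⁻¹ = x.1 * (σ (θ x))⁻¹ * (y.1 * (σ (θ y))⁻¹)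
    have h1 := hcom ((θ x)⁻¹) _ (hk y)
    rw [map_inv] at h1
    rw [map_mul, map_mul, mul_assoc x.1 (σ (θ x))⁻¹, ← h1, mul_inv_rev]
    simp only [mul_assoc]
  · intro n hn hn'
    apply Subtype.ext
    show n * (σ (θ ⟨n, hn'⟩))⁻¹ = n
    have h1 : θ ⟨n, hn'⟩ = 1 := Subtype.ext hn
    rw [h1, map_one, inv_one, mul_one]

include hcomm in
/-- upper bound for the number of the crossed homomorphisms -/
theorem card_le {h : ℕ} (e : SurfaceGroup h ≃* π.ker) {l : ℕ} [NeZero l] [Finite Q] :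
    Nat.card (Crs (π.subgroupComap (Subgroup.zpowers (π c)))
      (Sg.PM l (Subgroup.zpowers (π c)))) ≤ l ^ (2 * h) * l ^ Nat.card (Subgroup.zpowers (π c)) := by
  obtain ⟨S, hS⟩ : ∃ S, S = Subgroup.zpowers (π c) := ⟨_, rfl⟩
  rw [← hS]
  obtain ⟨θ, hθ⟩ : ∃ θ : S.comap π →* S, θ = π.subgroupComap S := ⟨_, rfl⟩
  rw [← hθ]
  have hcS : π c ∈ S := by rw [hS]; exact Subgroup.mem_zpowers _
  have hker : ∀ n ∈ π.ker, n ∈ S.comap π := fun n hn => by
    rw [Subgroup.mem_comap, MonoidHom.mem_ker.1 hn]; exact S.one_mem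
  let ι : π.ker →* S.comap π := Subgroup.inclusion (fun n hn => hker n hn)
  have hι : ∀ n, θ (ι n) = 1 := by
    intro n
    rw [hθ]
    exact Subtype.ext n.2
  let c' : S.comap π := ⟨c, hcS⟩
  -- the values on the kernel are constant
  have hinv : ∀ (F : Crs θ (Sg.PM l S)) (n : π.ker) (s : S), F.1 (ι n) s = F.1 (ι n) 1 := by
    intro F n s
    have h1 : c' * ι n = ι n * c' := Subtype.ext (hcomm n.1 n.2)
    have h2 : F.1 (c' * ι n) = F.1 (ι n * c') := by rw [h1]
    rw [F.2, F.2, hι, one_smul, add_comm] at h2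
    have h3 : θ c' • F.1 (ι n) = F.1 (ι n) := add_right_cancel h2
    have h4 : ∀ t : S, t • F.1 (ι n) = F.1 (ι n) := by
      intro t
      have h5 : Subgroup.zpowers (θ c') ≤ MulAction.stabilizer S (F.1 (ι n)) := by
        rw [Subgroup.zpowers_le]
        exact h3
      have h6 : t ∈ Subgroup.zpowers (θ c') := by
        have h7 : t.1 ∈ Subgroup.zpowers (π c) := by rw [← hS]; exact t.2
        obtain ⟨i, hi⟩ := Subgroup.mem_zpowers_iff.1 h7
        rw [Subgroup.mem_zpowers_iff]
        refine ⟨i, Subtype.ext ?_⟩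
        rw [← hi, hθ]
        rfl
      exact h5 h6
    have h5 := congrFun (h4 s⁻¹) 1
    rw [Sg.PM_smul, inv_inv] at h5
    have h6 : s • (1 : S) = s := mul_one s
    rw [h6] at h5
    exact h5
  -- the injection
  let f : Crs θ (Sg.PM l S) → (SurfaceGroup h →* Multiplicative (ZMod l)) × (Sg.PM l S) :=
    fun F => (MonoidHom.mk' (fun x => Multiplicative.ofAdd (F.1 (ι (e x)) 1)) (fun x y => by
      rw [map_mul, map_mul, F.2, hι, one_smul]
      rfl), F.1 c')
  have hf : Function.Injective f := by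
    intro F F' hFF
    have h1 : F.1 c' = F'.1 c' := congrArg Prod.snd hFF
    have h2 : ∀ n : π.ker, F.1 (ι n) = F'.1 (ι n) := by
      intro n
      funext s
      rw [hinv F n s, hinv F' n s]
      have h3 := DFunLike.congr_fun (congrArg Prod.fst hFF) (e.symm n)
      have h4 : F.1 (ι (e (e.symm n))) 1 = F'.1 (ι (e (e.symm n))) 1 :=
        Multiplicative.ofAdd.injective h3
      rwa [e.apply_symm_apply] at h4
    let E : Subgroup (S.comap π) :=
      { carrier := {x | F.1 x = F'.1 x}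
        mul_mem' := by
          intro x y hx hy
          show F.1 (x * y) = F'.1 (x * y)
          rw [F.2, F'.2, show F.1 x = F'.1 x from hx, show F.1 y = F'.1 y from hy]
        one_mem' := by
          show F.1 1 = F'.1 1
          rw [Crs.map_one F.2, Crs.map_one F'.2]
        inv_mem' := by
          intro x hx
          show F.1 x⁻¹ = F'.1 x⁻¹
          have hx' : F.1 x = F'.1 x := hx
          have h5 := F.2 x⁻¹ x
          have h6 := F'.2 x⁻¹ x
          rw [inv_mul_cancel, Crs.map_one F.2] at h5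
          rw [inv_mul_cancel, Crs.map_one F'.2, ← hx'] at h6
          rw [h5] at h6
          exact add_right_cancel h6 }
    have hE : ∀ x, x ∈ E := by
      intro x
      have h7 : π x.1 ∈ Subgroup.zpowers (π c) := by rw [← hS]; exact x.2
      obtain ⟨i, hi⟩ := Subgroup.mem_zpowers_iff.1 h7
      have h8 : (x * c' ^ (-i)).1 ∈ π.ker := by
        rw [MonoidHom.mem_ker]
        rw [show (x * c' ^ (-i) : S.comap π).1 = x.1 * c ^ (-i) from rfl, map_mul, map_zpow, ← hi,
          ← zpow_add, add_neg_cancel, zpow_zero]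
      have h9 : x * c' ^ (-i) ∈ E := h2 ⟨_, h8⟩
      have h10 : c' ∈ E := h1
      have h11 := E.mul_mem h9 (E.zpow_mem h10 i)
      rwa [mul_assoc, ← zpow_add, neg_add_cancel, zpow_zero, mul_one] at h11
    apply Subtype.ext
    funext x
    exact hE x
  have hfin : Finite (SurfaceGroup h →* Multiplicative (ZMod l)) := by
    have := card_surf (A := Multiplicative (ZMod l)) h
    apply Nat.finite_of_card_ne_zero
    rw [this]
    apply pow_ne_zero
    rw [Nat.card_eq_fintype_card]
    exact Fintype.card_ne_zero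
  have h1 := Nat.card_le_card_of_injective f hf
  rw [Nat.card_prod, card_surf, Sg.card_PM] at h1
  have h2 : Nat.card (Multiplicative (ZMod l)) = l := by
    show Nat.card (ZMod l) = l
    exact Nat.card_zmod l
  rwa [h2] at h1

end prod

/-- composition of a natural family with an isomorphism -/
def nbc {G H H' : Type} [Group G] [Group H] [Group H'] (Φ : NatBij G H) (e : H ≃* H') :
    NatBij G H' where
  toFun Q _ _ θ := (Φ.toFun Q θ).comp e.symm.toMonoidHom
  invFun Q _ _ θ := Φ.invFun Q (θ.comp e.toMonoidHom)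
  left_inv Q _ _ θ := by
    have h1 : ((Φ.toFun Q θ).comp e.symm.toMonoidHom).comp e.toMonoidHom = Φ.toFun Q θ := by
      ext x
      simp
    rw [h1]
    exact Φ.left_inv Q θ
  right_inv Q _ _ θ := by
    rw [Φ.right_inv]
    ext x
    simp
  nat f θ := by
    rw [Φ.nat]
    rfl

/-- the main counting argument -/
theorem no_prime {Λ Δ : Type} [Group Λ] [Group Δ] (L : Lat Δ) (Φ : NatBij Λ Δ)
    {Q : Type} [Group Q] [Finite Q] (π : Λ →* Q) {h : ℕ} (hh : 2 ≤ h)
    (e : SurfaceGroup h ≃* π.ker)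
    (c : Λ) (hcomm : ∀ n ∈ π.ker, c * n = n * c) (hc : ∀ i : ℤ, π c ^ i = 1 → c ^ i = 1)
    {p : ℕ} (hp : p.Prime) (hcp : orderOf (π c) = p) : False := by
  classical
  obtain ⟨S, hS⟩ : ∃ S, S = Subgroup.zpowers (π c) := ⟨_, rfl⟩
  obtain ⟨Ψ, hΨ⟩ := Pool.Agent.F8.natBij_comap Φ (π := π) (π' := Φ.toFun Q π) rfl S
  have hfi : (S.comap (Φ.toFun Q π)).FiniteIndex := by
    have h1 : (Φ.toFun Q π).ker ≤ S.comap (Φ.toFun Q π) := fun x hx => by
      rw [Subgroup.mem_comap, MonoidHom.mem_ker.1 hx]; exact S.one_mem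
    have h2 : (Φ.toFun Q π).ker.FiniteIndex := Subgroup.finiteIndex_ker _
    exact Subgroup.finiteIndex_of_le h1
  obtain ⟨g, k, m, hm, e1, -⟩ := (ToVT.sub L (S.comap (Φ.toFun Q π))).structure_theorem
  obtain ⟨l, hl1, hl⟩ := Nat.exists_infinite_primes (∑ j, m j + 1)
  have hl0 : NeZero l := ⟨hl.ne_zero⟩
  have hml : ∀ j n, (m j).Coprime (l ^ n) := by
    intro j n
    apply Nat.Coprime.pow_right
    rw [Nat.coprime_comm, Nat.Prime.coprime_iff_not_dvd hl]
    intro hd
    have h1 := Nat.le_of_dvd (by have := hm j; omega) hd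
    have h2 : m j ≤ ∑ j, m j := Finset.single_le_sum (fun _ _ => Nat.zero_le _) (Finset.mem_univ j)
    omega
  let Ψ' := nbc Ψ e1
  -- `h ≤ g`
  have hhg : h ≤ g := by
    have hA : Nat.card (Multiplicative (ZMod l)) = l := Nat.card_zmod l
    have h1 := card_sig (A := Multiplicative (ZMod l)) (g := g) (m := m) (fun j => by
      rw [hA]; simpa using hml j 1)
    have h2 : Nat.card (S.comap π →* Multiplicative (ZMod l)) =
        Nat.card (Sg.SigGroup g k m →* Multiplicative (ZMod l)) :=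
      Nat.card_congr (Ψ'.equiv _)
    have hfin : Finite (S.comap π →* Multiplicative (ZMod l)) := by
      have : Finite (Sg.SigGroup g k m →* Multiplicative (ZMod l)) := finite_hom _ _
      exact Finite.of_equiv _ (Ψ'.equiv _).symm
    subst hS
    obtain ⟨r, hr⟩ := exists_ret π hcomm hc
    have h3 : Function.Injective (fun f : SurfaceGroup h →* Multiplicative (ZMod l) =>
        (f.comp e.symm.toMonoidHom).comp r) := by
      intro f f' hff
      ext x
      have hx : (e x).1 ∈ (Subgroup.zpowers (π c)).comap π := by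
        rw [Subgroup.mem_comap, MonoidHom.mem_ker.1 (e x).2]; exact Subgroup.one_mem _
      have h4 := DFunLike.congr_fun hff ⟨(e x).1, hx⟩
      simp only [MonoidHom.comp_apply] at h4
      rw [hr _ (e x).2] at h4
      simpa using h4
    have h5 := Nat.card_le_card_of_injective _ h3
    rw [card_surf, h2, hA] at h5
    rw [hA] at h1
    have h6 := h5.trans h1
    rw [Nat.pow_le_pow_iff_right hl.one_lt] at h6
    omega
  -- the crossed homomorphisms
  have hSc : Nat.card S = p := by rw [hS, Nat.card_zpowers, hcp]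
  have h1 := card_le π hcomm e (l := l)
  rw [← hS, hSc] at h1
  have h2 : Nat.card (Crs (π.subgroupComap S) (Sg.PM l S)) =
      Nat.card (Crs (Ψ'.toFun S (π.subgroupComap S)) (Sg.PM l S)) := by
    rw [Nat.card_congr (crsEquiv _ _), Nat.card_congr (crsEquiv _ _)]
    exact Ψ'.card_lifts (AF.pr S (Sg.PM l S)) _
  have h3 := Sg.card_Crs_sig (Ψ'.toFun S (π.subgroupComap S)) (Sg.PM l S) (fun j => by
    rw [Sg.card_PM]; exact hml j _)
  have h4 := Sg.card_IP_PM (X := S) (Ψ'.toFun S (π.subgroupComap S)).range (p := l)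
  rw [← h2] at h3
  rw [hSc] at h4
  rw [Sg.card_PM, hSc] at h3
  have h5 : 1 ≤ Nat.card (MulAction.orbitRel.Quotient (Ψ'.toFun S (π.subgroupComap S)).range S) := by
    have : Nonempty (MulAction.orbitRel.Quotient (Ψ'.toFun S (π.subgroupComap S)).range S) :=
      ⟨Quotient.mk'' 1⟩
    exact Nat.card_pos
  have h6 : 1 ≤ ∏ j, Nat.card (IP (Sg.PM l S)
      (Subgroup.zpowers ((Ψ'.toFun S (π.subgroupComap S)) (Sg.xx j)))) :=
    Nat.one_le_iff_ne_zero.2 (Finset.prod_ne_zero_iff.2 fun j _ => Nat.card_pos.ne')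
  -- combine
  have h7 : Nat.card (IP (Sg.PM l S) (Ψ'.toFun S (π.subgroupComap S)).range) * l ≤ l ^ p := by
    rw [← h4]
    apply Nat.mul_le_mul_left
    calc l = l ^ 1 := (pow_one l).symm
      _ ≤ _ := Nat.pow_le_pow_right hl.pos h5
  have h8 : l ^ (2 * g * p + 1) ≤ l ^ (2 * h + p + p) := by
    calc l ^ (2 * g * p + 1) = (l ^ p) ^ (2 * g) * 1 * l := by
          rw [pow_succ, mul_one, ← pow_mul, mul_comm p]
      _ ≤ (l ^ p) ^ (2 * g) * (∏ j, Nat.card (IP (Sg.PM l S)
          (Subgroup.zpowers ((Ψ'.toFun S (π.subgroupComap S)) (Sg.xx j))))) * l := by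
          gcongr
      _ = Nat.card (Crs (π.subgroupComap S) (Sg.PM l S)) *
          (Nat.card (IP (Sg.PM l S) (Ψ'.toFun S (π.subgroupComap S)).range) * l) := by
          rw [← h3, mul_assoc]
      _ ≤ (l ^ (2 * h) * l ^ p) * l ^ p := Nat.mul_le_mul h1 h7
      _ = l ^ (2 * h + p + p) := by rw [pow_add, pow_add]
  rw [Nat.pow_le_pow_iff_right hl.one_lt] at h8
  have h9 := hp.two_le
  nlinarith [Nat.mul_le_mul hhg h9, Nat.mul_le_mul hh h9]

/-- **(T1)**: the centraliser of a normal surface subgroup of finite index is trivial -/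
theorem t1 {Λ Δ : Type} [Group Λ] [Group Δ] (L : Lat Δ) (Φ : NatBij Λ Δ)
    (N : Subgroup Λ) [N.Normal] [N.FiniteIndex] {h : ℕ} (hh : 2 ≤ h) (e : SurfaceGroup h ≃* N)
    (c : Λ) (hc : ∀ n ∈ N, c * n = n * c) : c = 1 := by
  classical
  have hfq : Finite (Λ ⧸ N) := Subgroup.finite_quotient_of_finiteIndex
  have hker : (QuotientGroup.mk' N).ker = N := QuotientGroup.ker_mk' N
  -- elements of `N` which commute with `N`
  have h0 : ∀ z ∈ N, (∀ n ∈ N, z * n = n * z) → z = 1 := by
    intro z hz hzc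
    have h1 : e.symm ⟨z, hz⟩ = 1 := center hh _ (fun y => by
      apply e.injective
      rw [map_mul, map_mul, e.apply_symm_apply]
      exact Subtype.ext (hzc _ (e y).2))
    have h2 := congrArg e h1
    rw [e.apply_symm_apply, map_one] at h2
    exact congrArg Subtype.val h2
  by_contra hc1
  have hpow : ∀ i : ℤ, ∀ n ∈ N, c ^ i * n = n * c ^ i := fun i n hn =>
    ((show Commute c n from hc n hn).zpow_left i).eq
  -- `c` has finite order
  have h1 : c ^ Nat.card (Λ ⧸ N) = 1 := by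
    apply h0
    · rw [← QuotientGroup.eq_one_iff, QuotientGroup.mk_pow, pow_card_eq_one']
    · intro n hn
      have := hpow (Nat.card (Λ ⧸ N) : ℤ) n hn
      rwa [zpow_natCast] at this
  have hfo : IsOfFinOrder c := isOfFinOrder_iff_pow_eq_one.2 ⟨_, Nat.card_pos, h1⟩
  have ho : orderOf c ≠ 1 := fun h => hc1 (orderOf_eq_one_iff.1 h)
  obtain ⟨p, hp, hpo⟩ := Nat.exists_prime_and_dvd ho
  obtain ⟨d, hd⟩ : ∃ d, d = c ^ (orderOf c / p) := ⟨_, rfl⟩
  have hdo : orderOf d = p := by
    rw [hd]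
    exact orderOf_pow_orderOf_div hfo.orderOf_pos.ne' hpo
  have hdc : ∀ n ∈ (QuotientGroup.mk' N).ker, d * n = n * d := by
    intro n hn
    rw [hker] at hn
    have := hpow ((orderOf c / p : ℕ) : ℤ) n hn
    rwa [zpow_natCast, ← hd] at this
  have hdz : ∀ i : ℤ, (QuotientGroup.mk' N d) ^ i = 1 → d ^ i = 1 := by
    intro i hi
    apply h0
    · rw [← map_zpow] at hi
      exact (QuotientGroup.eq_one_iff _).1 hi
    · intro n hn
      exact ((show Commute d n from hdc n (by rw [hker]; exact hn)).zpow_left i).eq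
  refine no_prime L Φ (QuotientGroup.mk' N) hh (e.trans (MulEquiv.subgroupCongr hker.symm)) d hdc
    hdz hp ?_
  have h2 : orderOf (QuotientGroup.mk' N d) ∣ p := by
    apply orderOf_dvd_of_pow_eq_one
    rw [← map_pow, ← hdo, pow_orderOf_eq_one, map_one]
  rcases (Nat.dvd_prime hp).1 h2 with h3 | h3
  · exfalso
    have h4 := hdz 1 (by rw [orderOf_eq_one_iff.1 h3, one_zpow])
    rw [zpow_one] at h4
    rw [h4, orderOf_one] at hdo
    exact hp.ne_one hdo.symm
  · exact h3

end Pool.Agent.ToT1
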