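import Pool.Agent.Lib.MP_305fdd_al.To.N.Disc

/-!
# MP_305fdd_al, lattices with torsion: hyperbolic elements

`exists_hyp`: a cocompact semigroup of matrices contains a hyperbolic matrix.
-/

set_option autoImplicit false

namespace Pool.Agent.ToT1

open Pool.Agent.ToN Matrix

/-! ## Two by two matrices -/

theorem tr_add (B M : SLR) : (B * M).1.trace + (B * M⁻¹).1.trace = B.1.trace * M.1.trace := by
  rw [mul1, mul1, inv1, Matrix.trace_fin_two, Matrix.trace_fin_two, Matrix.trace_fin_two,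
    Matrix.trace_fin_two, Matrix.adjugate_fin_two]
  simp only [Matrix.mul_apply, Fin.sum_univ_two, Matrix.of_apply, Matrix.cons_val', Matrix.cons_val_zero,
    Matrix.cons_val_one, Matrix.empty_val', Matrix.cons_val_fin_one]
  ring

/-- an element of finite order in `PSL_2(ℝ)` has a small trace -/
theorem tr_le_of_pow {A : SLR} {n : ℕ} (hn : 0 < n) (h : pr A ^ n = 1) : A.1.trace ^ 2 ≤ 4 := by
  by_contra hc
  push Not at hc
  obtain ⟨l, m, h1, h2, h3⟩ := exists_root hc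
  obtain ⟨v0, v1, hv, e0, e1⟩ := exists_eig (A := A) (l := l) (by
    rw [← h1, ← h2]; ring)
  obtain ⟨v, hvd⟩ : ∃ v : Fin 2 → ℝ, v = ![v0, v1] := ⟨_, rfl⟩
  have hv0 : v ≠ 0 := by
    intro h0
    apply hv
    rw [hvd] at h0
    exact ⟨congrFun h0 0, congrFun h0 1⟩
  have e : A.1.mulVec v = l • v := by
    rw [hvd]
    funext i
    fin_cases i
    · simp [Matrix.mulVec, dotProduct, Fin.sum_univ_two, e0]
    · simp [Matrix.mulVec, dotProduct, Fin.sum_univ_two, e1]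
  have ek : ∀ k : ℕ, (A ^ k).1.mulVec v = l ^ k • v := by
    intro k
    induction k with
    | zero => rw [pow_zero, pow_zero, one_smul, one1, Matrix.one_mulVec]
    | succ k ih =>
      rw [pow_succ, mul1, ← Matrix.mulVec_mulVec, e, Matrix.mulVec_smul, ih, smul_smul, pow_succ,
        mul_comm]
  have h4 : PM (A ^ n) 1 := by
    rw [← pr_eq_iff, map_pow, h, map_one]
  have h5 : l ^ n = 1 ∨ l ^ n = -1 := by
    obtain ⟨i, hi⟩ : ∃ i, v i ≠ 0 := by
      by_contra hne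
      push Not at hne
      exact hv0 (funext hne)
    have h6 := congrFun (ek n) i
    rcases h4 with h4 | h4
    · left
      rw [h4, one1, Matrix.one_mulVec, Pi.smul_apply, smul_eq_mul] at h6
      exact (mul_right_cancel₀ hi (by rw [one_mul]; exact h6)).symm
    · right
      rw [h4, one1, Matrix.neg_mulVec, Matrix.one_mulVec, Pi.smul_apply, smul_eq_mul, Pi.neg_apply] at h6
      exact (mul_right_cancel₀ hi (by rw [neg_one_mul]; exact h6)).symm
  have h6 : |l| ^ n = 1 := by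
    rw [← abs_pow]
    rcases h5 with h5 | h5
    · rw [h5, abs_one]
    · rw [h5, abs_neg, abs_one]
  have h7 := one_lt_pow₀ h3 hn.ne'
  linarith

theorem hyp_aux1 {a d s u D : ℝ} (hs0 : 0 < s) (hu0 : 0 < u) (hu1 : u ≤ 1) (hd : |d| ≤ D)
    (h : |a * s + d * u| ≤ 2) : |a| * s ≤ 2 + D := by
  have h1 : |a * s| ≤ |a * s + d * u| + |d * u| := by
    have := abs_sub (a * s + d * u) (d * u)
    rwa [add_sub_cancel_right] at this
  have h2 : |d * u| ≤ D := by
    rw [abs_mul, abs_of_pos hu0]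
    calc |d| * u ≤ |d| * 1 := mul_le_mul_of_nonneg_left hu1 (abs_nonneg _)
      _ ≤ D := by rw [mul_one]; exact hd
  rw [abs_mul, abs_of_pos hs0] at h1
  linarith

theorem hyp_aux2 {a d s D : ℝ} (hD : 1 ≤ D) (hs : s = 6 * D ^ 2) (hd : |d| ≤ D)
    (h : |a| * s ≤ 2 + D) : |a| * |d| ≤ 1 / 2 := by
  have hs0 : 0 < s := by rw [hs]; positivity
  have h1 : |a| * |d| * s ≤ (2 + D) * D := by
    calc |a| * |d| * s = |a| * s * |d| := by ring
      _ ≤ (2 + D) * D := mul_le_mul h hd (abs_nonneg _) (by linarith)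
  have h2 : (2 + D) * D ≤ 1 / 2 * s := by
    rw [hs]
    have h3 : 0 ≤ (D - 1) * D := mul_nonneg (by linarith) (by linarith)
    have h4 : 1 / 2 * (6 * D ^ 2) - (2 + D) * D = 2 * ((D - 1) * D) := by ring
    linarith
  exact le_of_mul_le_mul_right (h1.trans h2) hs0

theorem hyp_aux3 {x y z D : ℝ} (h : 1 - z ≤ x * y) (hz : z ≤ 1 / 2) (hx : x ≤ D) (hy : 0 ≤ y) :
    1 / 2 ≤ D * y := by
  have := mul_le_mul_of_nonneg_right hx hy
  linarith

/-- the real inequality -/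
theorem hyp_real {D s u a b c d a' b' c' d' : ℝ} (hD1 : 1 ≤ D) (hs : s = 6 * D ^ 2)
    (hsu : s * u = 1) (hu0 : 0 < u) (hu1 : u ≤ 1) (ba : |a| ≤ D) (bb : |b| ≤ D)
    (bd : |d| ≤ D) (bb' : |b'| ≤ D) (bc' : |c'| ≤ D) (bd' : |d'| ≤ D)
    (d1 : a * d - b * c = 1) (d2 : a' * d' - b' * c' = 1) (t1 : |a * s + d * u| ≤ 2)
    (t2 : |c' * s + -b' * u| ≤ 2)
    (t3 : |a * s * (-b' * u) + b * u * (-d' * u) + (c * s * (a' * s) + d * u * (c' * s))| ≤ 2) :
    False := by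
  have hD0 : 0 ≤ D := by linarith
  have hs0 : 0 < s := by rw [hs]; positivity
  have r3 := hyp_aux2 hD1 hs bd (hyp_aux1 hs0 hu0 hu1 bd t1)
  have r4 := hyp_aux2 hD1 hs bb' (hyp_aux1 hs0 hu0 hu1 (by rw [abs_neg]; exact bb') t2)
  have r5 : 1 / 2 ≤ D * |c| := by
    refine hyp_aux3 (x := |b|) ?_ r3 bb (abs_nonneg _)
    have h1 : b * c = a * d - 1 := by linarith
    rw [← abs_mul, ← abs_mul, h1, abs_sub_comm]
    have := abs_sub_abs_le_abs_sub 1 (a * d)
    rw [abs_one] at this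
    exact this
  have r6 : 1 / 2 ≤ D * |a'| := by
    refine hyp_aux3 (x := |d'|) ?_ r4 bd' (abs_nonneg _)
    have h1 : d' * a' = 1 + c' * b' := by linarith
    rw [← abs_mul, ← abs_mul, h1]
    have := abs_sub_abs_le_abs_sub 1 (-(c' * b'))
    rw [abs_one, abs_neg, sub_neg_eq_add] at this
    exact this
  have r7 : 9 * D ^ 2 ≤ |c * s * (a' * s)| := by
    have h1 : |c * s * (a' * s)| = 36 * D ^ 2 * ((D * |c|) * (D * |a'|)) := by
      rw [abs_mul, abs_mul, abs_mul, abs_of_pos hs0, hs]; ring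
    rw [h1]
    have h2 : 1 / 2 * (1 / 2) ≤ (D * |c|) * (D * |a'|) :=
      mul_le_mul r5 r6 (by norm_num) (by positivity)
    calc 9 * D ^ 2 = 36 * D ^ 2 * (1 / 2 * (1 / 2)) := by ring
      _ ≤ _ := mul_le_mul_of_nonneg_left h2 (by positivity)
  have e2 : |a * b'| ≤ D ^ 2 := by
    rw [abs_mul, sq]; exact mul_le_mul ba bb' (abs_nonneg _) hD0
  have e3 : |d * c'| ≤ D ^ 2 := by
    rw [abs_mul, sq]; exact mul_le_mul bd bc' (abs_nonneg _) hD0
  have e4 : |b * d' * u ^ 2| ≤ D ^ 2 := by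
    rw [abs_mul, abs_mul, abs_of_nonneg (sq_nonneg u)]
    have h5 : |b| * |d'| ≤ D ^ 2 := by
      rw [sq]; exact mul_le_mul bb bd' (abs_nonneg _) hD0
    have h6 : u ^ 2 ≤ 1 := pow_le_one₀ hu0.le hu1
    calc |b| * |d'| * u ^ 2 ≤ |b| * |d'| * 1 :=
          mul_le_mul_of_nonneg_left h6 (mul_nonneg (abs_nonneg _) (abs_nonneg _))
      _ ≤ D ^ 2 := by rw [mul_one]; exact h5
  have r8 : |a * s * (-b' * u) + b * u * (-d' * u) + d * u * (c' * s)| ≤ 3 * D ^ 2 := by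
    have h1 : a * s * (-b' * u) + b * u * (-d' * u) + d * u * (c' * s) =
        -(a * b') - b * d' * u ^ 2 + d * c' := by linear_combination (-(a * b') + d * c') * hsu
    rw [h1]
    have h5 := abs_le.1 e2
    have h6 := abs_le.1 e3
    have h7 := abs_le.1 e4
    rw [abs_le]
    constructor <;> linarith [h5.1, h5.2, h6.1, h6.2, h7.1, h7.2]
  have r9 : |c * s * (a' * s)| ≤ 2 + 3 * D ^ 2 := by
    have h1 : c * s * (a' * s) = (a * s * (-b' * u) + b * u * (-d' * u) +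
      (c * s * (a' * s) + d * u * (c' * s))) -
      (a * s * (-b' * u) + b * u * (-d' * u) + d * u * (c' * s)) := by ring
    rw [h1]
    exact (abs_sub _ _).trans (add_le_add t3 r8)
  have h9 : 1 ≤ D ^ 2 := one_le_pow₀ hD1
  linarith

/-- a cocompact set of matrices contains a hyperbolic matrix -/
theorem exists_hyp (S : Set SLR) (hS : ∀ A ∈ S, ∀ B ∈ S, A * B ∈ S) (C : ℝ)
    (hC : ∀ h : SLR, ∃ A ∈ S, ∀ i j, |(A * h).1 i j| ≤ C) : ∃ A ∈ S, 4 < A.1.trace ^ 2 := by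
  by_contra hne
  push Not at hne
  have hne' : ∀ A ∈ S, |A.1 0 0 + A.1 1 1| ≤ 2 := by
    intro A hA
    have := hne A hA
    rw [tr_eq] at this
    exact abs_le_of_sq_le_sq (by linarith) (by norm_num)
  obtain ⟨D, hD⟩ : ∃ D, D = max C 1 := ⟨_, rfl⟩
  have hD1 : 1 ≤ D := by rw [hD]; exact le_max_right _ _
  have hCD : C ≤ D := by rw [hD]; exact le_max_left _ _
  obtain ⟨s, hs⟩ : ∃ s, s = 6 * D ^ 2 := ⟨_, rfl⟩
  have h1D : 1 ≤ D ^ 2 := one_le_pow₀ hD1
  have hs0 : 0 < s := by rw [hs]; positivity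
  obtain ⟨u, hu⟩ : ∃ u, u = s⁻¹ := ⟨_, rfl⟩
  have hsu : s * u = 1 := by rw [hu]; exact mul_inv_cancel₀ hs0.ne'
  have hu0 : 0 < u := by rw [hu]; positivity
  have hu1 : u ≤ 1 := by
    rw [hu]
    exact inv_le_one_of_one_le₀ (by rw [hs]; linarith)
  have hd1 : u * s - 0 * 0 = 1 := by rw [mul_zero, sub_zero, mul_comm]; exact hsu
  have hd2 : 0 * 0 - -s * u = 1 := by rw [mul_zero, zero_sub, neg_mul, neg_neg]; exact hsu
  obtain ⟨A1, hA1, k1⟩ := hC (mkS u 0 0 s hd1)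
  obtain ⟨A2, hA2, k2⟩ := hC (mkS 0 (-s) u 0 hd2)
  obtain ⟨K1, hK1⟩ : ∃ K, K = A1 * mkS u 0 0 s hd1 := ⟨_, rfl⟩
  obtain ⟨K2, hK2⟩ : ∃ K, K = A2 * mkS 0 (-s) u 0 hd2 := ⟨_, rfl⟩
  rw [← hK1] at k1
  rw [← hK2] at k2
  have p00 : A1.1 0 0 = K1.1 0 0 * s := by
    have : K1.1 0 0 = A1.1 0 0 * u := by rw [hK1, mul00]; simp [mkS]
    rw [this]; linear_combination (-A1.1 0 0) * hsu
  have p01 : A1.1 0 1 = K1.1 0 1 * u := by
    have : K1.1 0 1 = A1.1 0 1 * s := by rw [hK1, mul01]; simp [mkS]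
    rw [this]; linear_combination (-A1.1 0 1) * hsu
  have p10 : A1.1 1 0 = K1.1 1 0 * s := by
    have : K1.1 1 0 = A1.1 1 0 * u := by rw [hK1, mul10]; simp [mkS]
    rw [this]; linear_combination (-A1.1 1 0) * hsu
  have p11 : A1.1 1 1 = K1.1 1 1 * u := by
    have : K1.1 1 1 = A1.1 1 1 * s := by rw [hK1, mul11]; simp [mkS]
    rw [this]; linear_combination (-A1.1 1 1) * hsu
  have q00 : A2.1 0 0 = -K2.1 0 1 * u := by
    have : K2.1 0 1 = -A2.1 0 0 * s := by rw [hK2, mul01]; simp [mkS]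
    rw [this]; linear_combination (-A2.1 0 0) * hsu
  have q01 : A2.1 0 1 = K2.1 0 0 * s := by
    have : K2.1 0 0 = A2.1 0 1 * u := by rw [hK2, mul00]; simp [mkS]
    rw [this]; linear_combination (-A2.1 0 1) * hsu
  have q10 : A2.1 1 0 = -K2.1 1 1 * u := by
    have : K2.1 1 1 = -A2.1 1 0 * s := by rw [hK2, mul11]; simp [mkS]
    rw [this]; linear_combination (-A2.1 1 0) * hsu
  have q11 : A2.1 1 1 = K2.1 1 0 * s := by
    have : K2.1 1 0 = A2.1 1 1 * u := by rw [hK2, mul10]; simp [mkS]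
    rw [this]; linear_combination (-A2.1 1 1) * hsu
  have t1 := hne' A1 hA1
  have t2 := hne' A2 hA2
  have t3 := hne' (A1 * A2) (hS _ hA1 _ hA2)
  rw [p00, p11] at t1
  rw [q00, q11, add_comm] at t2
  rw [mul00, mul11, p00, p01, p10, p11, q00, q01, q10, q11] at t3
  exact hyp_real hD1 hs hsu hu0 hu1 ((k1 0 0).trans hCD) ((k1 0 1).trans hCD)
    ((k1 1 1).trans hCD) ((k2 0 1).trans hCD) ((k2 1 0).trans hCD)
    ((k2 1 1).trans hCD) (slr_det K1) (slr_det K2) t1 t2 t3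

end Pool.Agent.ToT1
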